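import Mathlib
import Pool.Agent.Helper16.NR.Stmts2

/-! Module SZ: sizes. -/

set_option autoImplicit false

namespace Pool.Helper16.NR

theorem sz_abs2 {a b c d : ℤ} (h1 : |a| ≤ c) (h2 : |b| ≤ d) : |a * b| ≤ c * d := by
  rw [abs_mul]
  exact mul_le_mul h1 h2 (abs_nonneg _) ((abs_nonneg _).trans h1)

theorem sz_add2 {a b c d : ℤ} (h1 : |a| ≤ c) (h2 : |b| ≤ d) : |a + b| ≤ c + d :=
  (abs_add_le a b).trans (add_le_add h1 h2)

theorem sz_sub2 {a b c d : ℤ} (h1 : |a| ≤ c) (h2 : |b| ≤ d) : |a - b| ≤ c + d :=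
  (abs_sub a b).trans (add_le_add h1 h2)

theorem sz_B5 (t : ℕ × ℕ × ℕ × ℕ) : tB t ≠ 0 := by
  have h1 : tx1 t ≡ 0 [ZMOD 5] := by
    unfold tx1 Int.ModEq
    omega
  have h2 : tv t ≡ 1 [ZMOD 5] := by
    unfold tv Int.ModEq
    omega
  have h3 : tB t ≡ 1 ^ 2 - 0 * tx2 t * tx3 t [ZMOD 5] :=
    (h2.pow 2).sub ((h1.mul (Int.ModEq.refl _)).mul (Int.ModEq.refl _))
  intro h
  rw [h] at h3
  simp only [zero_mul, sub_zero, one_pow] at h3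
  exact absurd h3 (by decide)

theorem sz_D11 (t : ℕ × ℕ × ℕ × ℕ) : 4 * tA t ^ 3 + 27 * tB t ^ 2 ≠ 0 := by
  have h1 : tx1 t ≡ 3 [ZMOD 11] := by
    unfold tx1 Int.ModEq
    omega
  have h2 : tx2 t ≡ 9 [ZMOD 11] := by
    unfold tx2 Int.ModEq
    omega
  have h3 : tu t ≡ 0 [ZMOD 11] := by
    unfold tu Int.ModEq
    omega
  have h4 : tv t ≡ 1 [ZMOD 11] := by
    unfold tv Int.ModEq
    omega
  have h5 : tx3 t ≡ 0 ^ 2 - 3 - 9 [ZMOD 11] := ((h3.pow 2).sub h1).sub h2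
  have h6 : tA t ≡ 2 * 0 * 1 + (3 * 9 + 3 * (0 ^ 2 - 3 - 9) + 9 * (0 ^ 2 - 3 - 9)) [ZMOD 11] :=
    (((Int.ModEq.refl 2).mul h3).mul h4).add (((h1.mul h2).add (h1.mul h5)).add (h2.mul h5))
  have h7 : tB t ≡ 1 ^ 2 - 3 * 9 * (0 ^ 2 - 3 - 9) [ZMOD 11] :=
    (h4.pow 2).sub ((h1.mul h2).mul h5)
  have h8 := ((Int.ModEq.refl 4).mul (h6.pow 3)).add ((Int.ModEq.refl 27).mul (h7.pow 2))
  intro h
  rw [h] at h8
  exact absurd h8 (by decide)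

theorem st_SZ : ST_SZ := by
  refine ⟨100000000000000000000, by norm_num, ?_⟩
  intro m hm t ht
  obtain ⟨k1, k2, j, l⟩ := t
  unfold TT at ht
  simp only [Finset.mem_product, Finset.mem_range, Finset.mem_Ico] at ht
  obtain ⟨hk1, hk2, ⟨_, hj⟩, hl⟩ := ht
  have hM : (1 : ℤ) ≤ (m : ℤ) := by exact_mod_cast hm
  have k1' : (k1 : ℤ) + 1 ≤ (m : ℤ) ^ 2 := by exact_mod_cast hk1
  have k2' : (k2 : ℤ) + 1 ≤ (m : ℤ) ^ 2 := by exact_mod_cast hk2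
  have j' : (j : ℤ) + 1 ≤ 2 * (m : ℤ) := by exact_mod_cast hj
  have l' : (l : ℤ) + 1 ≤ (m : ℤ) ^ 3 := by exact_mod_cast hl
  have k10 : (0 : ℤ) ≤ (k1 : ℤ) := Int.natCast_nonneg _
  have k20 : (0 : ℤ) ≤ (k2 : ℤ) := Int.natCast_nonneg _
  have j0 : (0 : ℤ) ≤ (j : ℤ) := Int.natCast_nonneg _
  have l0 : (0 : ℤ) ≤ (l : ℤ) := Int.natCast_nonneg _
  set M : ℤ := (m : ℤ) with hMdef
  set t : ℕ × ℕ × ℕ × ℕ := (k1, k2, j, l) with htdef
  have e1 : |tx1 t| ≤ 55 * M ^ 2 := by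
    have h : tx1 t = 55 * (k1 : ℤ) + 25 := rfl
    rw [h, abs_of_nonneg (by linarith)]
    linarith
  have e2 : |tx2 t| ≤ 55 * M ^ 2 := by
    have h : tx2 t = 55 * (k2 : ℤ) + 42 := rfl
    rw [h, abs_of_nonneg (by linarith)]
    linarith
  have eu : |tu t| ≤ 110 * M := by
    have h : tu t = 55 * (j : ℤ) := rfl
    rw [h, abs_of_nonneg (by linarith)]
    linarith
  have ev : |tv t| ≤ 55 * M ^ 3 := by
    have h : tv t = 55 * (l : ℤ) + 1 := rfl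
    rw [h, abs_of_nonneg (by linarith)]
    linarith
  have hM2 : (0 : ℤ) ≤ M ^ 2 := by positivity
  have e3 : |tx3 t| ≤ 12210 * M ^ 2 := by
    have h : tx3 t = tu t * tu t - tx1 t - tx2 t := by
      unfold tx3
      ring
    rw [h]
    refine (sz_sub2 (sz_sub2 (sz_abs2 eu eu) e1) e2).trans (le_of_eq ?_)
    ring
  have eA : |tA t| ≤ 1358225 * M ^ 4 := by
    unfold tA
    refine (sz_add2 (sz_abs2 (sz_abs2 (le_refl |(2 : ℤ)|) eu) ev)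
      (sz_add2 (sz_add2 (sz_abs2 e1 e2) (sz_abs2 e1 e3)) (sz_abs2 e2 e3))).trans (le_of_eq ?_)
    rw [abs_of_nonneg (by norm_num : (0 : ℤ) ≤ 2)]
    ring
  have eB : |tB t| ≤ 36938275 * M ^ 6 := by
    have h : tB t = tv t * tv t - tx1 t * tx2 t * tx3 t := by
      unfold tB
      ring
    rw [h]
    refine (sz_sub2 (sz_abs2 ev ev) (sz_abs2 (sz_abs2 e1 e2) e3)).trans (le_of_eq ?_)
    ring
  have hM6 : (0 : ℤ) ≤ M ^ 6 := by positivity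
  have hM12 : (0 : ℤ) ≤ M ^ 12 := by positivity
  refine ⟨?_, ?_, ?_, sz_B5 _, sz_D11 _⟩
  · have h1 := pow_le_pow_left₀ (abs_nonneg (tA t)) eA 3
    have h2 : (1358225 * M ^ 4) ^ 3 = 2505619728957640625 * M ^ 12 := by ring
    rw [h2] at h1
    push_cast
    linarith
  · have h1 := pow_le_pow_left₀ (abs_nonneg (tB t)) eB 2
    have h2 : (36938275 * M ^ 6) ^ 2 = 1364436159975625 * M ^ 12 := by ring
    rw [h2, sq_abs] at h1
    push_cast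
    linarith
  · push_cast
    linarith

end Pool.Helper16.NR
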